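import Pool.Agent.Lib.MP_770ffc_an.Chain

set_option autoImplicit false

open MeasureTheory Set Filter Topology Metric
open scoped ContDiff NNReal

namespace Pool.Agent.Lib.MP_770ffc_an

abbrev ES (d : ℕ) : Type := EuclideanSpace ℝ (Fin d)

def Box {d : ℕ} (a b : Fin d → ℝ) : Set (ES d) := {x | ∀ i, a i < x i ∧ x i < b i}

lemma Box_eq {d : ℕ} (a b : Fin d → ℝ) :
    Box a b = WithLp.ofLp ⁻¹' (Set.pi univ fun i => Ioo (a i) (b i)) := by
  ext x; simp [Box]

lemma isOpen_Box {d : ℕ} (a b : Fin d → ℝ) : IsOpen (Box a b) := by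
  rw [Box_eq]
  exact (isOpen_set_pi finite_univ fun _ _ => isOpen_Ioo).preimage (PiLp.continuous_ofLp 2 _)

lemma convex_Box {d : ℕ} (a b : Fin d → ℝ) : Convex ℝ (Box a b) := by
  intro x hx y hy s t hs ht hst i
  exact convex_Ioo (a i) (b i) (hx i) (hy i) hs ht hst

lemma volume_Box {d : ℕ} (a b : Fin d → ℝ) :
    volume (Box a b) = ∏ i, ENNReal.ofReal (b i - a i) := by
  rw [Box_eq, (PiLp.volume_preserving_ofLp (Fin d)).measure_preimage
    (MeasurableSet.univ_pi fun _ => measurableSet_Ioo).nullMeasurableSet, Real.volume_pi_Ioo]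

lemma volume_real_Box {d : ℕ} {a b : Fin d → ℝ} (h : ∀ i, a i ≤ b i) :
    volume.real (Box a b) = ∏ i, (b i - a i) := by
  rw [measureReal_def, volume_Box, ENNReal.toReal_prod]
  exact Finset.prod_congr rfl fun i _ => ENNReal.toReal_ofReal (by linarith [h i])

lemma norm_sq_le_of_Box {d : ℕ} {a b : Fin d → ℝ} {s : ℝ} (h : ∀ i, b i - a i ≤ s) {x y : ES d}
    (hx : x ∈ Box a b) (hy : y ∈ Box a b) : ‖y - x‖ ^ 2 ≤ d * s ^ 2 := by
  rw [EuclideanSpace.norm_sq_eq]
  refine (Finset.sum_le_card_nsmul _ _ (s ^ 2) fun i _ => ?_).trans (by simp)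
  rw [Real.norm_eq_abs, sq_abs, PiLp.sub_apply]
  exact sq_le_sq' (by linarith [h i, (hx i).2, (hy i).1]) (by linarith [h i, (hx i).1, (hy i).2])

lemma isBounded_Box {d : ℕ} (a b : Fin d → ℝ) : Bornology.IsBounded (Box a b) := by
  obtain ⟨s, hs⟩ := (Set.finite_range fun i => b i - a i).bddAbove
  refine Metric.isBounded_iff.mpr ⟨√(d * s ^ 2), fun x hx y hy => ?_⟩
  rw [dist_eq_norm]
  exact Real.le_sqrt_of_sq_le (norm_sq_le_of_Box (fun i => hs ⟨i, rfl⟩) hy hx)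

lemma isLipschitzDomain_union {d : ℕ} (hd : 0 < d) {n : ℕ} (hn : 0 < n) (b : ℕ → Fin d → ℝ)
    (hb : ∀ j i, 0 < b j i) : IsLipschitzDomain (⋃ j ∈ Finset.range n, Box 0 (b j)) := by
  have hopen : IsOpen (⋃ j ∈ Finset.range n, Box 0 (b j)) :=
    isOpen_biUnion fun j _ => isOpen_Box _ _
  obtain ⟨δ, hδ, hδ'⟩ : ∃ δ : ℝ, 0 < δ ∧ ∀ j ∈ Finset.range n, ∀ i, δ < b j i := by
    have h1 : ∀ᶠ δ in 𝓝[>] (0 : ℝ), ∀ j ∈ Finset.range n, ∀ i, δ < b j i :=
      nhdsWithin_le_nhds ((Finset.range n).eventually_all.mpr fun j _ =>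
        eventually_all.mpr fun i => gt_mem_nhds (hb j i))
    obtain ⟨δ, h2, h3⟩ := (h1.and self_mem_nhdsWithin).exists
    exact ⟨δ, h3, h2⟩
  have hp : ∀ j ∈ Finset.range n, (WithLp.toLp 2 fun _ => δ : ES d) ∈ Box 0 (b j) :=
    fun j hj i => ⟨hδ, hδ' j hj i⟩
  refine ⟨hopen, ⟨⟨_, mem_iUnion₂.mpr ⟨0, by simpa using hn, hp 0 (by simpa using hn)⟩⟩, ?_⟩,
    (Bornology.isBounded_biUnion_finset _).mpr fun j _ => isBounded_Box _ _, fun x₀ hx₀ => ?_⟩
  · refine isPreconnected_of_forall (WithLp.toLp 2 fun _ => δ : ES d) fun y hy => ?_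
    obtain ⟨j, hj, hy'⟩ := mem_iUnion₂.mp hy
    exact ⟨_, subset_biUnion_of_mem (u := fun j => Box 0 (b j)) (s := (Finset.range n : Set ℕ)) hj,
      hp j hj, hy', (convex_Box _ _).isPreconnected⟩
  have hcl := frontier_subset_closure hx₀
  have hnn : ∀ i, 0 ≤ x₀ i := by
    intro i
    refine closure_minimal (t := {x : ES d | 0 ≤ x i}) ?_
      (isClosed_le continuous_const (by fun_prop)) hcl
    intro y hy
    obtain ⟨j, -, hy'⟩ := mem_iUnion₂.mp hy
    exact (hy' i).1.le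
  obtain ⟨r, hr, hrδ, hr'⟩ : ∃ r : ℝ, 0 < r ∧ r < δ ∧ ∀ i, x₀ i ≠ 0 → r < x₀ i := by
    have h1 : ∀ᶠ r in 𝓝[>] (0 : ℝ), r < δ ∧ ∀ i, x₀ i ≠ 0 → r < x₀ i := by
      refine nhdsWithin_le_nhds ((gt_mem_nhds hδ).and (eventually_all.mpr fun i => ?_))
      by_cases hi : x₀ i = 0
      · simp [hi]
      · filter_upwards [gt_mem_nhds (lt_of_le_of_ne (hnn i) (Ne.symm hi))] with r hr _ using hr
    obtain ⟨r, h2, h3⟩ := (h1.and self_mem_nhdsWithin).exists
    exact ⟨r, h3, h2.1, h2.2⟩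
  have hsd : 0 < √(d : ℝ) := Real.sqrt_pos.mpr (by exact_mod_cast hd)
  set v : ES d := WithLp.toLp 2 fun i => (if x₀ i = 0 then -1 else 1) / √(d : ℝ) with hv
  have hv1 : ‖v‖ = 1 := by
    rw [← sq_eq_sq₀ (norm_nonneg _) zero_le_one, EuclideanSpace.norm_sq_eq]
    have : ∀ i, ‖v i‖ ^ 2 = 1 / d := by
      intro i
      simp only [hv, Real.norm_eq_abs, sq_abs, div_pow, Real.sq_sqrt (Nat.cast_nonneg d)]
      split_ifs <;> norm_num
    simp only [this, Finset.sum_const, Finset.card_univ, Fintype.card_fin, nsmul_eq_mul]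
    have : (d : ℝ) ≠ 0 := by exact_mod_cast hd.ne'
    field_simp
  obtain ⟨K, γ, h1, h2, h3⟩ := graph_of_cone hopen hcl hr hv1 hsd.le (by
    rintro x hx y ⟨hy, hy'⟩ hlt
    obtain ⟨j, hj, hyj⟩ := mem_iUnion₂.mp hy
    refine mem_iUnion₂.mpr ⟨j, hj, fun i => ?_⟩
    have h4 : |((x - y) - inner ℝ (x - y) v • v) i| ≤ ‖(x - y) - inner ℝ (x - y) v • v‖ :=
      PiLp.norm_apply_le ((x - y) - inner ℝ (x - y) v • v) i
    have h5 : inner ℝ (x - y) v = -inner ℝ (y - x) v := by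
      rw [← inner_neg_left, neg_sub]
    set t := inner ℝ (y - x) v
    have h6 : |x i - y i + t * v i| < t / √(d : ℝ) := by
      rw [lt_div_iff₀ hsd]
      refine lt_of_le_of_lt ?_ hlt
      rw [mul_comm]
      refine mul_le_mul_of_nonneg_left (le_of_eq_of_le ?_ h4) hsd.le
      rw [h5]; simp
    have h7 : |x i - x₀ i| < r :=
      lt_of_le_of_lt (PiLp.norm_apply_le (x - x₀) i) (by rwa [mem_ball, dist_eq_norm] at hx)
    have h8 := hyj i
    simp only [Pi.zero_apply] at h8 ⊢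
    rw [abs_lt] at h6 h7
    by_cases hi : x₀ i = 0
    · have : t * v i = -(t / √(d : ℝ)) := by simp only [hv, hi, if_true]; ring
      rw [this] at h6
      constructor
      · linarith [h6.1, h8.1]
      · linarith [h7.2, hδ' j hj i]
    · have : t * v i = t / √(d : ℝ) := by simp only [hv, hi, if_false]; ring
      rw [this] at h6
      constructor
      · linarith [h7.1, hr' i hi]
      · linarith [h6.2, h8.2])
  exact ⟨r, v, K, γ, hr, hv1, h1, h2, h3⟩

def sd {m : ℕ} (L w : ℝ) : Fin (m + 1) → ℝ := fun i => if i = 0 then L else w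

lemma sd_zero {m : ℕ} (L w : ℝ) : sd (m := m) L w 0 = L := by simp [sd]

lemma sd_succ {m : ℕ} (L w : ℝ) (i : Fin m) : sd L w i.succ = w := by simp [sd]

lemma sd_zero_zero {m : ℕ} : sd (m := m) 0 0 = 0 := by ext i; simp [sd]

lemma mem_Box_sd {m : ℕ} {a L w : ℝ} {x : ES (m + 1)} : x ∈ Box (sd a 0) (sd L w) ↔
    (a < x 0 ∧ x 0 < L) ∧ ∀ i : Fin m, 0 < x i.succ ∧ x i.succ < w := by
  simp only [Box, mem_ofPred_eq, Fin.forall_fin_succ, sd_zero, sd_succ]

lemma volume_real_sd {m : ℕ} {a L w : ℝ} (h : a ≤ L) (hw : 0 ≤ w) :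
    volume.real (Box (sd (m := m) a 0) (sd L w)) = (L - a) * w ^ m := by
  rw [volume_real_Box (fun i => by unfold sd; split_ifs <;> assumption), Fin.prod_univ_succ]
  simp [sd_zero, sd_succ]

theorem exists_test (k : ℕ) : ∃ M : ℝ, 0 ≤ M ∧ ∀ (m : ℕ) (Ω : Set (ES (m + 1))) (l w : ℝ), 0 < l →
    0 < w → MeasurableSet Ω → Bornology.IsBounded Ω → Box (sd 0 0) (sd ((k + 1) * l) w) ⊆ Ω →
    M / l ^ 2 * (volume.real Ω / (l * w ^ m)) ∈ Adm Ω k := by
  let ψ : ContDiffBump (1 / 2 : ℝ) := ⟨1 / 4, 1 / 2, by norm_num, by norm_num⟩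
  have hψ : ContDiff ℝ 1 ψ := ψ.contDiff
  have hψ' : Continuous (deriv ψ) := hψ.continuous_deriv le_rfl
  obtain ⟨C, hC⟩ := hψ'.bounded_above_of_compact_support ψ.hasCompactSupport.deriv
  have hC0 : 0 ≤ C := (norm_nonneg _).trans (hC 0)
  refine ⟨2 * ((k + 1) * C) ^ 2, by positivity, fun m Ω l w hl hw hΩm hΩb hsub => ?_⟩
  let e : ES (m + 1) := EuclideanSpace.single 0 1
  let T : (Fin (k + 1) → ℝ) →ₗ[ℝ] ((ES (m + 1) → ℝ) × (ES (m + 1) → ES (m + 1))) :=
    { toFun := fun c => (fun x => ∑ j, c j * ψ (x 0 / l - (j : ℕ)),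
        fun x => (∑ j, c j * (deriv ψ (x 0 / l - (j : ℕ)) / l)) • e)
      map_add' := fun c c' => by
        ext x
        · simp [add_mul, Finset.sum_add_distrib]
        · simp [add_mul, Finset.sum_add_distrib, add_smul]
      map_smul' := fun a c => by
        ext x
        · simp [Finset.mul_sum, mul_assoc]
        · simp [Finset.mul_sum, mul_assoc, Finset.sum_mul] }
  have hH1 : ∀ c, IsH1 Ω (T c).1 (T c).2 := by
    intro c
    refine isH1_of_contDiff hΩm hΩb ?_ fun x => ?_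
    · change Continuous fun x : ES (m + 1) => (∑ j, c j * (deriv ψ (x 0 / l - (j : ℕ)) / l)) • e
      fun_prop
    · have h1 : HasDerivAt (fun s : ℝ => ∑ j : Fin (k + 1), c j * ψ (s / l - (j : ℕ)))
          (∑ j : Fin (k + 1), c j * (deriv ψ (x 0 / l - (j : ℕ)) / l)) (x 0) := by
        refine HasDerivAt.fun_sum fun j _ => HasDerivAt.const_mul _ ?_
        refine ((hψ.differentiable (by simp) _).hasDerivAt.comp (x 0)
          (((hasDerivAt_id (x 0)).div_const l).sub_const ((j : ℕ) : ℝ))).congr_deriv ?_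
        simp; ring
      have h2 := h1.comp_hasFDerivAt x (EuclideanSpace.proj (𝕜 := ℝ) (0 : Fin (m + 1))).hasFDerivAt
      refine h2.congr_fderiv ?_
      ext y
      simp [T, e, EuclideanSpace.inner_single_left]
  have : IsFiniteMeasure (volume.restrict Ω) :=
    isFiniteMeasure_restrict.mpr hΩb.measure_lt_top.ne
  have hlow : ∀ c (j : Fin (k + 1)), c j ^ 2 * (l / 2 * w ^ m) ≤ ∫ x in Ω, (T c).1 x ^ 2 := by
    intro c j
    have hj : ((j : ℕ) : ℝ) ≤ k := by exact_mod_cast Nat.lt_succ_iff.mp j.2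
    have hj0 : (0 : ℝ) ≤ (j : ℕ) := Nat.cast_nonneg _
    set S : Set (ES (m + 1)) := Box (sd (l * ((j : ℕ) + 1 / 4)) 0) (sd (l * ((j : ℕ) + 3 / 4)) w)
    have hS : S ⊆ Ω := by
      refine subset_trans (fun x hx => ?_) hsub
      rw [mem_Box_sd] at hx ⊢
      exact ⟨⟨by nlinarith [hx.1.1], by nlinarith [hx.1.2]⟩, hx.2⟩
    have hval : ∀ x ∈ S, (T c).1 x ^ 2 = c j ^ 2 := by
      intro x hx
      rw [mem_Box_sd] at hx
      have h1 : (j : ℕ) + 1 / 4 < x 0 / l := by rw [lt_div_iff₀ hl]; linarith [hx.1.1]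
      have h2 : x 0 / l < (j : ℕ) + 3 / 4 := by rw [div_lt_iff₀ hl]; linarith [hx.1.2]
      congr 1
      change ∑ i, c i * ψ (x 0 / l - (i : ℕ)) = c j
      rw [Finset.sum_eq_single j, ψ.one_of_mem_closedBall, mul_one]
      · rw [mem_closedBall, Real.dist_eq, abs_le]
        simp only [ψ]
        constructor <;> linarith
      · intro i _ hij
        rw [ψ.zero_of_le_dist, mul_zero]
        rw [Real.dist_eq, le_abs]
        simp only [ψ]
        rcases lt_or_gt_of_ne (Fin.val_ne_of_ne hij) with h | h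
        · have : ((i : ℕ) : ℝ) + 1 ≤ (j : ℕ) := by exact_mod_cast h
          left; linarith
        · have : ((j : ℕ) : ℝ) + 1 ≤ (i : ℕ) := by exact_mod_cast h
          right; linarith
      · simp
    refine le_trans (le_of_eq ?_) (setIntegral_mono_set (hH1 c).1.integrable_sq
      (Eventually.of_forall fun _ => sq_nonneg _) hS.eventuallyLE)
    rw [setIntegral_congr_fun (isOpen_Box _ _).measurableSet hval, setIntegral_const,
      volume_real_sd (by nlinarith) hw.le, smul_eq_mul]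
    ring
  have hpos : 0 < l / 2 * w ^ m := by positivity
  have hne : ∀ c, c ≠ 0 → ∫ x in Ω, (T c).1 x ^ 2 ≠ 0 := by
    intro c hc
    obtain ⟨j, hj⟩ := Function.ne_iff.mp hc
    exact (lt_of_lt_of_le (mul_pos (sq_pos_of_ne_zero hj) hpos) (hlow c j)).ne'
  have hinj : Function.Injective T := by
    rw [← LinearMap.ker_eq_bot, LinearMap.ker_eq_bot']
    intro c hc
    by_contra h0
    exact hne c h0 (by simp [hc])
  refine ⟨T.range, by rw [LinearMap.finrank_range_of_inj hinj]; simp, ?_⟩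
  rintro _ ⟨c, rfl⟩
  refine ⟨hH1 c, fun h => hne c (by rintro rfl; exact h (map_zero T)), ?_⟩
  obtain ⟨j, hj⟩ := Finite.exists_max fun j => |c j|
  have h1 : ∀ x, ‖(T c).2 x‖ ^ 2 ≤ ((k + 1) * C / l) ^ 2 * c j ^ 2 := by
    intro x
    rw [← sq_abs (c j), ← mul_pow]
    refine pow_le_pow_left₀ (norm_nonneg _) ?_ 2
    change ‖(∑ j, c j * (deriv ψ (x 0 / l - (j : ℕ)) / l)) • e‖ ≤ _
    rw [norm_smul, show ‖e‖ = 1 by simp [e], mul_one]
    refine (norm_sum_le _ _).trans ((Finset.sum_le_card_nsmul _ _ (|c j| * (C / l))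
      fun i _ => ?_).trans (le_of_eq ?_))
    · rw [norm_mul, norm_div, Real.norm_of_nonneg hl.le]
      gcongr
      · exact hj i
      · exact hC _
    · simp; ring
  have h2 : ∫ x in Ω, ‖(T c).2 x‖ ^ 2 ≤ volume.real Ω * (((k + 1) * C / l) ^ 2 * c j ^ 2) := by
    refine (integral_mono (hH1 c).int_sq (integrable_const _) h1).trans (le_of_eq ?_)
    simp
  refine h2.trans (le_trans (le_of_eq ?_) (mul_le_mul_of_nonneg_left (hlow c j) (by positivity)))
  field_simp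

end Pool.Agent.Lib.MP_770ffc_an
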