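import Pool.Agent.Lib.MP_770ffc_an.Moll

set_option autoImplicit false

open MeasureTheory Set Filter Topology Metric
open scoped ContDiff NNReal

namespace Pool.Agent.Lib.MP_770ffc_an

variable {E : Type} [NormedAddCommGroup E] [InnerProductSpace ℝ E]
  [FiniteDimensional ℝ E] [MeasurableSpace E] [BorelSpace E]

def Adm (Ω : Set E) (k : ℕ) : Set ℝ :=
  {t : ℝ | ∃ V : Submodule ℝ ((E → ℝ) × (E → E)), Module.finrank ℝ V = k + 1 ∧
    ∀ p ∈ V, IsH1 Ω p.1 p.2 ∧ (p ≠ 0 → ∫ x in Ω, p.1 x ^ 2 ≠ 0) ∧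
      ∫ x in Ω, ‖p.2 x‖ ^ 2 ≤ t * ∫ x in Ω, p.1 x ^ 2}

lemma neumannEig_eq (Ω : Set E) (k : ℕ) : neumannEig Ω k = sInf (Adm Ω k) := rfl

def Poin (Ω : Set E) (η : ℝ) : Prop :=
  ∀ u g, IsH1 Ω u g → ∃ c : ℝ, ∫ x in Ω, (u x - c) ^ 2 ≤ η * ∫ x in Ω, ‖g x‖ ^ 2

lemma Poin.le_of_adm {Ω : Set E} (hΩ : volume Ω ≠ ⊤) {η : ℝ} (hη : 0 < η) (h : Poin Ω η) {k : ℕ}
    (hk : 1 ≤ k) {t : ℝ} (ht : t ∈ Adm Ω k) : 1 / η ≤ t := by
  obtain ⟨V, hV, hV'⟩ := ht
  have : IsFiniteMeasure (volume.restrict Ω) := isFiniteMeasure_restrict.mpr hΩ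
  have hint : ∀ p ∈ V, Integrable p.1 (volume.restrict Ω) := fun p hp =>
    (hV' p hp).1.1.integrable (by norm_num)
  let F : V →ₗ[ℝ] ℝ :=
    { toFun := fun p => ∫ x in Ω, p.1.1 x
      map_add' := fun p q => integral_add (hint _ p.2) (hint _ q.2)
      map_smul' := fun a p => integral_smul a _ }
  have : FiniteDimensional ℝ V := Module.finite_of_finrank_pos (by omega)
  have hker : F.ker ≠ ⊥ := LinearMap.ker_ne_bot_of_finrank_lt (by simp; omega)
  obtain ⟨p, hp, hp0⟩ := Submodule.exists_mem_ne_zero_of_ne_bot hker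
  have hmean : ∫ x in Ω, p.1.1 x = 0 := hp
  obtain ⟨h1, h2, h3⟩ := hV' p.1 p.2
  obtain ⟨c, hc⟩ := h _ _ h1
  have h4 : 0 < ∫ x in Ω, p.1.1 x ^ 2 :=
    lt_of_le_of_ne (integral_nonneg fun _ => sq_nonneg _)
      (h2 fun h0 => hp0 (Subtype.ext h0)).symm
  have h5 : ∫ x in Ω, p.1.1 x ^ 2 ≤ ∫ x in Ω, (p.1.1 x - c) ^ 2 := by
    have h6 : ∫ x in Ω, (p.1.1 x ^ 2 - 2 * c * p.1.1 x) ≤ ∫ x in Ω, (p.1.1 x - c) ^ 2 := by
      refine integral_mono (h1.1.integrable_sq.sub ((hint _ p.2).const_mul _))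
        (h1.1.sub (memLp_const c)).integrable_sq fun x => ?_
      simp only
      nlinarith [sq_nonneg c]
    rw [integral_sub h1.1.integrable_sq ((hint _ p.2).const_mul _), integral_const_mul, hmean]
      at h6
    simpa using h6
  rw [div_le_iff₀ hη]
  have h7 := h5.trans (hc.trans (mul_le_mul_of_nonneg_left h3 hη.le))
  by_contra hlt
  push Not at hlt
  nlinarith

theorem poin_chain {Ω : Set E} (hΩ : IsOpen Ω) (hΩ1 : volume Ω ≠ ⊤) (Q : ℕ → Set E) (n : ℕ)
    (hcov : Ω ⊆ ⋃ j ∈ Finset.range n, Q j) (hQ : ∀ j, Convex ℝ (Q j))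
    (hQm : ∀ j, MeasurableSet (Q j)) (hQΩ : ∀ j < n, Q j ⊆ Ω) (hQ0 : ∀ j, volume (Q j) ≠ 0) {D : ℝ}
    (hD0 : 0 ≤ D) (hD : ∀ j, ∀ x ∈ Q j, ∀ y ∈ Q j, ‖y - x‖ ^ 2 ≤ D)
    (hov : ∀ j, volume.real (Q (j + 1)) ≤ 2 * volume.real (Q j ∩ Q (j + 1)))
    (hdec : ∀ j, 4 * volume.real (Q (j + 1)) ≤ volume.real (Q j)) :
    Poin Ω (n * (66 * (4 * D * 2 ^ Module.finrank ℝ E))) := by
  intro u g h
  set κ := (4 * D * 2 ^ Module.finrank ℝ E) * ∫ x in Ω, ‖g x‖ ^ 2 with hκ
  have hκ0 : 0 ≤ κ := mul_nonneg (by positivity) (integral_nonneg fun _ => sq_nonneg _)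
  have hfin : ∀ j < n, volume (Q j) ≠ ⊤ := fun j hj =>
    ne_top_of_le_ne_top hΩ1 (measure_mono (hQΩ j hj))
  have hex : ∀ j, ∃ c : ℝ, j < n → ∫ x in Q j, (u x - c) ^ 2 ≤ κ := by
    intro j
    by_cases hj : j < n
    · obtain ⟨c, hc⟩ := poincare_convex hΩ (hQ j) (hQm j) (hQΩ j hj) (hQ0 j) (hfin j hj) (hD j) h
      exact ⟨c, fun _ => hc⟩
    · exact ⟨0, fun h => absurd h hj⟩
  choose c hc using hex
  have : IsFiniteMeasure (volume.restrict Ω) := isFiniteMeasure_restrict.mpr hΩ1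
  have hint : ∀ a : ℝ, IntegrableOn (fun x => (u x - a) ^ 2) Ω := fun a =>
    (h.1.sub (memLp_const a)).integrable_sq
  have htri : ∀ (A : Set E), A ⊆ Ω → ∀ a b : ℝ, ∫ x in A, (u x - a) ^ 2 ≤
      2 * (∫ x in A, (u x - b) ^ 2) + 2 * (volume.real A * (b - a) ^ 2) := by
    intro A hA a b
    have : IsFiniteMeasure (volume.restrict A) :=
      isFiniteMeasure_restrict.mpr (ne_top_of_le_ne_top hΩ1 (measure_mono hA))
    have h1 : ∫ x in A, (u x - a) ^ 2 ≤ ∫ x in A, (2 * (u x - b) ^ 2 + 2 * (b - a) ^ 2) := by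
      refine integral_mono ((hint a).mono_set hA)
        ((((hint b).mono_set hA).const_mul _).add (integrable_const _)) fun x => ?_
      simp only
      nlinarith [sq_nonneg (u x - b - (b - a))]
    rw [integral_add (((hint b).mono_set hA).const_mul _) (integrable_const _),
      integral_const_mul] at h1
    simp only [integral_const, measureReal_restrict_apply_univ, smul_eq_mul] at h1
    linarith
  have hstep : ∀ j, j + 1 < n → volume.real (Q (j + 1)) * (c (j + 1) - c j) ^ 2 ≤ 8 * κ := by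
    intro j hj
    have hA : Q j ∩ Q (j + 1) ⊆ Ω := inter_subset_left.trans (hQΩ j (by omega))
    have : IsFiniteMeasure (volume.restrict (Q j ∩ Q (j + 1))) :=
      isFiniteMeasure_restrict.mpr (ne_top_of_le_ne_top hΩ1 (measure_mono hA))
    have h1 : ∫ x in Q j ∩ Q (j + 1), (c (j + 1) - c j) ^ 2 ≤
        ∫ x in Q j ∩ Q (j + 1), (2 * (u x - c j) ^ 2 + 2 * (u x - c (j + 1)) ^ 2) := by
      refine integral_mono (integrable_const _)
        ((((hint _).mono_set hA).const_mul _).add (((hint _).mono_set hA).const_mul _)) fun x => ?_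
      simp only
      nlinarith [sq_nonneg (u x - c j + (u x - c (j + 1)))]
    rw [integral_add (((hint _).mono_set hA).const_mul _) (((hint _).mono_set hA).const_mul _),
      integral_const_mul, integral_const_mul] at h1
    simp only [integral_const, measureReal_restrict_apply_univ, smul_eq_mul] at h1
    have h2 : ∫ x in Q j ∩ Q (j + 1), (u x - c j) ^ 2 ≤ κ :=
      (setIntegral_mono_set ((hint _).mono_set (hQΩ j (by omega)))
        (Eventually.of_forall fun _ => sq_nonneg _) inter_subset_left.eventuallyLE).trans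
        (hc j (by omega))
    have h3 : ∫ x in Q j ∩ Q (j + 1), (u x - c (j + 1)) ^ 2 ≤ κ :=
      (setIntegral_mono_set ((hint _).mono_set (hQΩ (j + 1) hj))
        (Eventually.of_forall fun _ => sq_nonneg _) inter_subset_right.eventuallyLE).trans
        (hc (j + 1) hj)
    nlinarith [mul_le_mul_of_nonneg_right (hov j) (sq_nonneg (c (j + 1) - c j))]
  have hs : ∀ j, j < n → volume.real (Q j) * (c j - c 0) ^ 2 ≤ 32 * κ := by
    intro j
    induction j with
    | zero => intro _; simp; positivity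
    | succ j ih =>
      intro hj
      have h1 := ih (by omega)
      have h2 := hstep j hj
      have h3 : (c (j + 1) - c 0) ^ 2 ≤ 2 * (c (j + 1) - c j) ^ 2 + 2 * (c j - c 0) ^ 2 := by
        nlinarith [sq_nonneg (c (j + 1) - c j - (c j - c 0))]
      have h4 := mul_le_mul_of_nonneg_left h3 (measureReal_nonneg (μ := volume) (s := Q (j + 1)))
      nlinarith [mul_le_mul_of_nonneg_right (hdec j) (sq_nonneg (c j - c 0))]
  refine ⟨c 0, ?_⟩
  have h1 : ∫ x in Ω, (u x - c 0) ^ 2 ≤ ∑ j ∈ Finset.range n, ∫ x in Q j, (u x - c 0) ^ 2 := by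
    have hi : ∀ j ∈ Finset.range n,
        Integrable ((Q j).indicator fun x => (u x - c 0) ^ 2) volume := fun j hj =>
      (integrable_indicator_iff (hQm j)).mpr
        ((hint _).mono_set (hQΩ j (Finset.mem_range.mp hj)))
    rw [← integral_indicator hΩ.measurableSet]
    simp only [← integral_indicator (hQm _)]
    rw [← integral_finsetSum _ hi]
    refine integral_mono ((integrable_indicator_iff hΩ.measurableSet).mpr (hint _))
      (integrable_finsetSum _ hi) fun x => ?_
    have hnn : ∀ j ∈ Finset.range n, 0 ≤ (Q j).indicator (fun x => (u x - c 0) ^ 2) x :=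
      fun j _ => indicator_nonneg (fun _ _ => sq_nonneg _) x
    by_cases hx : x ∈ Ω
    · obtain ⟨j, hj, hxj⟩ := mem_iUnion₂.mp (hcov hx)
      refine le_trans (le_of_eq ?_) (Finset.single_le_sum hnn hj)
      rw [indicator_of_mem hx, indicator_of_mem hxj]
    · rw [indicator_of_notMem hx]
      exact Finset.sum_nonneg hnn
  refine h1.trans ((Finset.sum_le_card_nsmul _ _ (66 * κ) fun j hj => ?_).trans (le_of_eq ?_))
  · have hj' := Finset.mem_range.mp hj
    linarith [htri (Q j) (hQΩ j hj') (c 0) (c j), hc j hj', hs j hj']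
  · rw [Finset.card_range, nsmul_eq_mul, hκ]; ring

lemma isH1_of_contDiff {Ω : Set E} (hΩm : MeasurableSet Ω) (hΩb : Bornology.IsBounded Ω)
    {U : E → ℝ} {G : E → E} (hG : Continuous G)
    (hU : ∀ x, HasFDerivAt U (innerSL ℝ (G x)) x) : IsH1 Ω U G := by
  have hUc : Continuous U := continuous_iff_continuousAt.mpr fun x => (hU x).continuousAt
  have : IsFiniteMeasure (volume.restrict Ω) :=
    isFiniteMeasure_restrict.mpr hΩb.measure_lt_top.ne
  have hK : IsCompact (closure Ω) := hΩb.isCompact_closure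
  refine ⟨?_, ?_, fun φ hφ hφc hφs v => ?_⟩
  · obtain ⟨C, hC⟩ := hK.exists_bound_of_continuousOn hUc.continuousOn
    refine MemLp.of_bound hUc.aestronglyMeasurable C ?_
    filter_upwards [ae_restrict_mem hΩm] with x hx using hC x (subset_closure hx)
  · obtain ⟨C, hC⟩ := hK.exists_bound_of_continuousOn hG.continuousOn
    refine MemLp.of_bound hG.aestronglyMeasurable C ?_
    filter_upwards [ae_restrict_mem hΩm] with x hx using hC x (subset_closure hx)
  · have hφ' : Continuous fun x => fderiv ℝ φ x v :=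
      (hφ.continuous_fderiv (by simp)).clm_apply continuous_const
    have hφc' : HasCompactSupport fun x => fderiv ℝ φ x v := hφc.fderiv_apply ℝ v
    have hUd : ∀ x, fderiv ℝ U x v = inner ℝ (G x) v := fun x => by rw [(hU x).fderiv]; rfl
    have hi : Continuous fun x => inner ℝ (G x) v := hG.inner continuous_const
    rw [setIntegral_eq_integral_of_forall_compl_eq_zero,
      setIntegral_eq_integral_of_forall_compl_eq_zero,
      integral_mul_fderiv_eq_neg_fderiv_mul_of_integrable]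
    · simp only [hUd]
    · simp only [hUd]
      exact (hi.mul hφ.continuous).integrable_of_hasCompactSupport hφc.mul_left
    · exact (hUc.mul hφ').integrable_of_hasCompactSupport hφc'.mul_left
    · exact (hUc.mul hφ.continuous).integrable_of_hasCompactSupport hφc.mul_left
    · exact fun x _ => (hU x).differentiableAt
    · exact fun x _ => hφ.differentiable (by simp) x
    · intro x hx
      rw [image_eq_zero_of_notMem_tsupport fun h => hx (hφs h), mul_zero]
    · intro x hx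
      have : fderiv ℝ φ x = 0 := by
        by_contra h0
        exact hx (hφs (support_fderiv_subset ℝ h0))
      simp [this]

omit [FiniteDimensional ℝ E] [MeasurableSpace E] [BorelSpace E] in
lemma graph_of_cone {Ω : Set E} (hΩ : IsOpen Ω) {x₀ : E} (hx₀ : x₀ ∈ closure Ω) {r : ℝ}
    (hr : 0 < r) {v : E} (hv : ‖v‖ = 1) {L : ℝ} (hL : 0 ≤ L)
    (h : ∀ x ∈ ball x₀ r, ∀ y ∈ Ω ∩ ball x₀ r,
      L * ‖(x - y) - inner ℝ (x - y) v • v‖ < inner ℝ (y - x) v → x ∈ Ω) :
    ∃ (K : ℝ≥0) (γ : E → ℝ), LipschitzWith K γ ∧ (∀ (x : E) (t : ℝ), γ (x + t • v) = γ x) ∧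
      Ω ∩ ball x₀ r = {x ∈ ball x₀ r | inner ℝ x v < γ x} := by
  set f : E → E → ℝ := fun y x => inner ℝ y v - L * ‖(x - y) - inner ℝ (x - y) v • v‖ with hf
  have hvv : inner ℝ v v = (1 : ℝ) := by rw [real_inner_self_eq_norm_sq, hv]; norm_num
  have hne : (Ω ∩ ball x₀ r).Nonempty := by
    obtain ⟨y, hy, hy'⟩ := Metric.mem_closure_iff.mp hx₀ r hr
    exact ⟨y, hy, by rwa [mem_ball, dist_comm]⟩
  have hbdd : ∀ x, BddAbove ((fun y => f y x) '' (Ω ∩ ball x₀ r)) := by
    intro x
    refine ⟨‖x₀‖ + r, ?_⟩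
    rintro _ ⟨y, hy, rfl⟩
    have h1 : inner ℝ y v ≤ ‖y‖ := by
      simpa [hv] using real_inner_le_norm y v
    have h2 : ‖y‖ ≤ ‖x₀‖ + r := norm_le_of_mem_closedBall (ball_subset_closedBall hy.2)
    have h3 := mul_nonneg hL (norm_nonneg ((x - y) - inner ℝ (x - y) v • v))
    simp only [hf]
    linarith
  refine ⟨⟨2 * L, by positivity⟩, fun x => sSup ((fun y => f y x) '' (Ω ∩ ball x₀ r)), ?_, ?_, ?_⟩
  · refine LipschitzWith.of_le_add_mul _ fun x z => ?_
    refine csSup_le (hne.image _) ?_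
    rintro _ ⟨y, hy, rfl⟩
    have h1 := le_csSup (hbdd z) ⟨y, hy, rfl⟩
    have h2 : (z - y) - inner ℝ (z - y) v • v =
        ((x - y) - inner ℝ (x - y) v • v) + ((z - x) - inner ℝ (z - x) v • v) := by
      simp only [inner_sub_left]; module
    have h3 : ‖(z - x) - inner ℝ (z - x) v • v‖ ≤ 2 * dist x z := by
      refine (norm_sub_le _ _).trans ?_
      rw [norm_smul, hv, dist_comm, dist_eq_norm]
      have := abs_real_inner_le_norm (z - x) v
      rw [hv] at this
      rw [Real.norm_eq_abs]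
      linarith
    have h4 := norm_add_le ((x - y) - inner ℝ (x - y) v • v) ((z - x) - inner ℝ (z - x) v • v)
    rw [← h2] at h4
    have h5 := mul_le_mul_of_nonneg_left (h4.trans (add_le_add_right h3 _)) hL
    change f y x ≤ _ + 2 * L * dist x z
    simp only [hf] at h1 ⊢
    linarith
  · intro x t
    have : (fun y => f y (x + t • v)) = fun y => f y x := by
      ext y
      have h1 : x + t • v - y - inner ℝ (x + t • v - y) v • v =
          x - y - inner ℝ (x - y) v • v := by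
        simp only [inner_sub_left, inner_add_left, real_inner_smul_left, hvv]
        module
      simp only [hf, h1]
    simp only [this]
  · ext x
    simp only [mem_inter_iff, mem_ofPred_eq]
    constructor
    · rintro ⟨h1, h2⟩
      refine ⟨h2, ?_⟩
      have hc : Continuous fun t : ℝ => x + t • v := by fun_prop
      have h3 : ∀ᶠ t in 𝓝[>] (0 : ℝ), x + t • v ∈ Ω ∩ ball x₀ r :=
        nhdsWithin_le_nhds ((hc.continuousAt (x := 0)).eventually
          ((hΩ.inter isOpen_ball).mem_nhds (by simpa using ⟨h1, h2⟩)))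
      obtain ⟨t, ht1, ht2⟩ := (h3.and self_mem_nhdsWithin).exists
      refine lt_of_lt_of_le ?_ (le_csSup (hbdd x) ⟨_, ht1, rfl⟩)
      have h4 : (x - (x + t • v)) - inner ℝ (x - (x + t • v)) v • v = 0 := by
        simp only [inner_sub_left, inner_add_left, real_inner_smul_left, hvv]
        module
      simp only [hf, h4, inner_add_left, real_inner_smul_left, hvv]
      simpa using ht2
    · rintro ⟨h1, h2⟩
      obtain ⟨_, ⟨y, hy, rfl⟩, h3⟩ := exists_lt_of_lt_csSup (hne.image _) h2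
      refine ⟨h x h1 y hy ?_, h1⟩
      simp only [hf] at h3
      rw [inner_sub_left y x]
      linarith

end Pool.Agent.Lib.MP_770ffc_an
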