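import Mathlib

set_option autoImplicit false

open MeasureTheory
open scoped ContDiff NNReal

namespace Pool.Agent.Lib.MP_770ffc_an

variable {E : Type} [NormedAddCommGroup E] [InnerProductSpace ℝ E]

/-- Bounded Lipschitz domain: open, connected, bounded, and near each boundary point it is the
region below the graph of a Lipschitz function over the hyperplane orthogonal to a unit vector. -/
def IsLipschitzDomain (Ω : Set E) : Prop :=
  IsOpen Ω ∧ IsConnected Ω ∧ Bornology.IsBounded Ω ∧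
  ∀ x₀ ∈ frontier Ω, ∃ (r : ℝ) (v : E) (L : ℝ≥0) (γ : E → ℝ), 0 < r ∧ ‖v‖ = 1 ∧
    LipschitzWith L γ ∧ (∀ (x : E) (t : ℝ), γ (x + t • v) = γ x) ∧
    Ω ∩ Metric.ball x₀ r = {x ∈ Metric.ball x₀ r | inner ℝ x v < γ x}

variable [FiniteDimensional ℝ E] [MeasurableSpace E] [BorelSpace E]

/-- `u` lies in the Sobolev space `H¹(Ω)` with weak gradient `g`. -/
def IsH1 (Ω : Set E) (u : E → ℝ) (g : E → E) : Prop :=
  MemLp u 2 (volume.restrict Ω) ∧ MemLp g 2 (volume.restrict Ω) ∧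
  ∀ φ : E → ℝ, ContDiff ℝ ∞ φ → HasCompactSupport φ → tsupport φ ⊆ Ω → ∀ v : E,
    ∫ x in Ω, u x * fderiv ℝ φ x v = -∫ x in Ω, inner ℝ (g x) v * φ x

/-- The Neumann eigenvalue `μ_k(Ω)` (with `μ_0 = 0`) by the Courant-Fischer min-max formula over
`(k+1)`-dimensional subspaces of `H¹(Ω)`. -/
noncomputable def neumannEig (Ω : Set E) (k : ℕ) : ℝ :=
  sInf {t : ℝ | ∃ V : Submodule ℝ ((E → ℝ) × (E → E)), Module.finrank ℝ V = k + 1 ∧
    ∀ p ∈ V, IsH1 Ω p.1 p.2 ∧ (p ≠ 0 → ∫ x in Ω, p.1 x ^ 2 ≠ 0) ∧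
      ∫ x in Ω, ‖p.2 x‖ ^ 2 ≤ t * ∫ x in Ω, p.1 x ^ 2}

end Pool.Agent.Lib.MP_770ffc_an
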