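import Pool.Agent.Lib.MP_770ffc_an.Boxes

set_option autoImplicit false

open MeasureTheory Set Filter Topology Metric

namespace Pool.Agent.Lib.MP_770ffc_an

noncomputable def stair (m n : ℕ) : Set (ES (m + 1 + 1)) :=
  ⋃ j ∈ Finset.range n, Box 0 (sd ((j : ℝ) + 2) ((1 / 4) ^ j))

lemma sd_pos {m : ℕ} {L w : ℝ} (hL : 0 < L) (hw : 0 < w) (i : Fin (m + 1)) : 0 < sd L w i := by
  unfold sd; split_ifs <;> assumption

lemma volume_sd_ne_zero {m : ℕ} {a L w : ℝ} (h : a < L) (hw : 0 < w) :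
    volume (Box (sd (m := m) a 0) (sd L w)) ≠ 0 := by
  intro h0
  have h1 := volume_real_sd (m := m) h.le hw.le
  rw [measureReal_def, h0, ENNReal.toReal_zero] at h1
  exact (mul_pos (sub_pos.mpr h) (pow_pos hw m)).ne h1

lemma poin_stair (m n : ℕ) : Poin (stair m n)
    (n * (66 * (4 * (((m + 1 + 1 : ℕ) : ℝ) * 2 ^ 2) * 2 ^ Module.finrank ℝ (ES (m + 1 + 1))))) := by
  have hw : ∀ j : ℕ, (0 : ℝ) < (1 / 4) ^ j := fun j => by positivity
  have hanti : ∀ i j : ℕ, i ≤ j → ((1 / 4 : ℝ)) ^ j ≤ (1 / 4) ^ i := fun i j h =>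
    pow_le_pow_of_le_one (by norm_num) (by norm_num) h
  refine poin_chain (isOpen_biUnion fun j _ => isOpen_Box _ _)
    ((Bornology.isBounded_biUnion_finset _).mpr fun j _ => isBounded_Box _ _).measure_lt_top.ne
    (fun j => Box (sd (j : ℝ) 0) (sd ((j : ℝ) + 2) ((1 / 4) ^ j))) n ?_
    (fun j => convex_Box _ _) (fun j => (isOpen_Box _ _).measurableSet) ?_
    (fun j => volume_sd_ne_zero (by linarith) (hw j)) (by positivity) ?_ ?_ ?_
  · intro x hx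
    obtain ⟨j, hj, hxj⟩ := mem_iUnion₂.mp hx
    rw [← sd_zero_zero, mem_Box_sd] at hxj
    have hex : ∃ i : ℕ, x 0 < i + 2 := ⟨j, hxj.1.2⟩
    have hij : Nat.find hex ≤ j := Nat.find_min' hex hxj.1.2
    refine mem_iUnion₂.mpr ⟨Nat.find hex, ?_, ?_⟩
    · exact Finset.mem_range.mpr (lt_of_le_of_lt hij (Finset.mem_range.mp hj))
    · rw [mem_Box_sd]
      refine ⟨⟨?_, Nat.find_spec hex⟩, fun i => ⟨(hxj.2 i).1, (hxj.2 i).2.trans_le (hanti _ _ hij)⟩⟩
      rcases Nat.eq_zero_or_eq_succ_pred (Nat.find hex) with h | h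
      · rw [h]; simpa using hxj.1.1
      · have h1 := Nat.find_min hex (m := (Nat.find hex).pred) (by omega)
        rw [h]
        push_cast
        linarith
  · intro j hj x hx
    refine mem_iUnion₂.mpr ⟨j, Finset.mem_range.mpr hj, ?_⟩
    rw [← sd_zero_zero]
    rw [mem_Box_sd] at hx ⊢
    exact ⟨⟨lt_of_le_of_lt (Nat.cast_nonneg j) hx.1.1, hx.1.2⟩, hx.2⟩
  · intro j x hx y hy
    refine norm_sq_le_of_Box (fun i => ?_) hx hy
    unfold sd
    split_ifs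
    · linarith
    · linarith [hanti 0 j (Nat.zero_le j), pow_zero (1 / 4 : ℝ)]
  · intro j
    have h1 : Box (sd (m := m + 1) ((j : ℝ) + 1) 0) (sd ((j : ℝ) + 2) ((1 / 4) ^ (j + 1))) ⊆
        Box (sd (j : ℝ) 0) (sd ((j : ℝ) + 2) ((1 / 4) ^ j)) ∩
          Box (sd ((j + 1 : ℕ) : ℝ) 0) (sd (((j + 1 : ℕ) : ℝ) + 2) ((1 / 4) ^ (j + 1))) := by
      intro x hx
      rw [mem_inter_iff, mem_Box_sd, mem_Box_sd]
      rw [mem_Box_sd] at hx
      push_cast
      exact ⟨⟨⟨by linarith [hx.1.1], hx.1.2⟩, fun i =>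
        ⟨(hx.2 i).1, (hx.2 i).2.trans_le (hanti _ _ (Nat.le_succ j))⟩⟩,
        ⟨hx.1.1, by linarith [hx.1.2]⟩, hx.2⟩
    have h2 := measureReal_mono (μ := volume) h1
      ((isBounded_Box _ _).subset inter_subset_left).measure_lt_top.ne
    rw [volume_real_sd (by linarith) (hw _).le] at h2 ⊢
    linarith
  · intro j
    rw [volume_real_sd (by linarith) (hw _).le, volume_real_sd (by linarith) (hw _).le,
      pow_succ (1 / 4 : ℝ) j, mul_pow]
    have h1 := hanti 1 (m + 1) (by omega)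
    have h2 : (0 : ℝ) < ((1 / 4) ^ j) ^ (m + 1) := by positivity
    nlinarith

theorem main (k m : ℕ) (hk : 1 ≤ k) {ε : ℝ} (hε : 0 < ε) :
    ∃ Ω₁ Ω₂ : Set (ES (m + 1 + 1)), IsLipschitzDomain Ω₁ ∧ IsLipschitzDomain Ω₂ ∧ Ω₁ ⊆ Ω₂ ∧
      Convex ℝ Ω₁ ∧ 0 < neumannEig Ω₁ k ∧ 0 < neumannEig Ω₂ k ∧
      neumannEig Ω₁ k / neumannEig Ω₂ k < ε := by
  obtain ⟨M, hM, hT⟩ := exists_test k
  set c : ℝ := 66 * (4 * (((m + 1 + 1 : ℕ) : ℝ) * 2 ^ 2) * 2 ^ Module.finrank ℝ (ES (m + 1 + 1)))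
    with hc
  have hc0 : 0 < c := by positivity
  obtain ⟨N, hN⟩ := exists_nat_gt (M * (k + 1) ^ 3 * c / ε)
  have hN0 : (0 : ℝ) ≤ N := Nat.cast_nonneg N
  set w : ℝ := (1 / 4) ^ N with hw
  have hw0 : 0 < w := by positivity
  set l : ℝ := (N + 2) / (k + 1) with hl
  have hl0 : 0 < l := by positivity
  have hkl : (k + 1) * l = N + 2 := by rw [hl]; field_simp
  set Ω₁ : Set (ES (m + 1 + 1)) := Box (sd 0 0) (sd ((N : ℝ) + 2) w) with hΩ₁
  have hL₁ : IsLipschitzDomain Ω₁ := by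
    have := isLipschitzDomain_union (d := m + 1 + 1) (by omega) (n := 1) one_pos
      (fun _ => sd ((N : ℝ) + 2) w) (fun _ => sd_pos (by positivity) hw0)
    simpa [hΩ₁, sd_zero_zero] using this
  have hL₂ : IsLipschitzDomain (stair m (N + 1)) :=
    isLipschitzDomain_union (by omega) (by omega) _ fun j => sd_pos (by positivity) (by positivity)
  have hsub : Ω₁ ⊆ stair m (N + 1) := by
    intro x hx
    refine mem_iUnion₂.mpr ⟨N, by simp, ?_⟩
    rw [← sd_zero_zero]; exact hx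
  have hA₁ := hT (m + 1) Ω₁ l w hl0 hw0 hL₁.1.measurableSet hL₁.2.2.1 (by rw [hkl])
  have hA₂ := hT (m + 1) _ l w hl0 hw0 hL₂.1.measurableSet hL₂.2.2.1 (by rw [hkl]; exact hsub)
  have hP₁ : Poin Ω₁ (4 * (((m + 1 + 1 : ℕ) : ℝ) * (N + 2) ^ 2) *
      2 ^ Module.finrank ℝ (ES (m + 1 + 1))) := by
    intro u g h
    refine poincare_convex hL₁.1 (convex_Box _ _) hL₁.1.measurableSet subset_rfl
      (volume_sd_ne_zero (by positivity) hw0) hL₁.2.2.1.measure_lt_top.ne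
      (fun x hx y hy => norm_sq_le_of_Box (fun i => ?_) hx hy) h
    unfold sd
    have : w ≤ 1 := pow_le_one₀ (by norm_num) (by norm_num)
    split_ifs <;> linarith
  have hlow₁ := fun t ht => hP₁.le_of_adm hL₁.2.2.1.measure_lt_top.ne (by positivity) hk (t := t) ht
  have hlow₂ := fun t ht => (poin_stair m (N + 1)).le_of_adm hL₂.2.2.1.measure_lt_top.ne
    (by positivity) hk (t := t) ht
  have h1 := le_csInf ⟨_, hA₁⟩ hlow₁
  have h2 := le_csInf ⟨_, hA₂⟩ hlow₂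
  have h3 := csInf_le ⟨_, hlow₁⟩ hA₁
  rw [← neumannEig_eq] at h1 h2 h3
  rw [← hc] at h2
  have h4 : 0 < neumannEig (stair m (N + 1)) k := lt_of_lt_of_le (by positivity) h2
  refine ⟨Ω₁, stair m (N + 1), hL₁, hL₂, hsub, convex_Box _ _, lt_of_lt_of_le (by positivity) h1,
    h4, ?_⟩
  rw [div_lt_iff₀ h4]
  refine lt_of_le_of_lt h3 (lt_of_lt_of_le ?_ (mul_le_mul_of_nonneg_left h2 hε.le))
  rw [hΩ₁, volume_real_sd (by positivity) hw0.le, sub_zero, hl]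
  rw [div_lt_iff₀ hε] at hN
  push_cast
  have h5 : M / (((N : ℝ) + 2) / (k + 1)) ^ 2 *
      ((N + 2) * w ^ (m + 1) / ((N + 2) / (k + 1) * w ^ (m + 1))) =
      M * (k + 1) ^ 3 / (N + 2) ^ 2 := by field_simp
  rw [h5, mul_one_div, div_lt_div_iff₀ (by positivity) (by positivity)]
  nlinarith [mul_pos hε (by positivity : (0 : ℝ) < N + 1)]

end Pool.Agent.Lib.MP_770ffc_an
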