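import Pool.Agent.Lib.MP_770ffc_an.Defs

set_option autoImplicit false

open MeasureTheory Set Filter Topology Metric
open scoped ContDiff NNReal ENNReal Convolution

namespace Pool.Agent.Lib.MP_770ffc_an

variable {E : Type} [NormedAddCommGroup E] [InnerProductSpace ℝ E]
  [FiniteDimensional ℝ E] [MeasurableSpace E] [BorelSpace E]

noncomputable def mol (f ρ : E → ℝ) : E → ℝ := f ⋆[ContinuousLinearMap.lsmul ℝ ℝ, volume] ρ

lemma mol_apply (f ρ : E → ℝ) (z : E) : mol f ρ z = ∫ t, f t * ρ (z - t) := by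
  unfold mol; rw [convolution_lsmul]; rfl

lemma mol_indicator {Ω : Set E} (hΩ : MeasurableSet Ω) (f ρ : E → ℝ) (z : E) :
    mol (Ω.indicator f) ρ z = ∫ t in Ω, f t * ρ (z - t) := by
  rw [mol_apply, ← integral_indicator hΩ]
  congr 1; ext t
  by_cases ht : t ∈ Ω <;> simp [ht]

lemma IsH1.locInt {Ω : Set E} (hΩ : MeasurableSet Ω) {u : E → ℝ} {g : E → E} (h : IsH1 Ω u g) :
    LocallyIntegrable (Ω.indicator u) volume :=
  ((memLp_indicator_iff_restrict hΩ).mpr h.1).locallyIntegrable (by norm_num)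

lemma IsH1.int_sq {Ω : Set E} {u : E → ℝ} {g : E → E} (h : IsH1 Ω u g) :
    Integrable (fun x => ‖g x‖ ^ 2) (volume.restrict Ω) :=
  h.2.1.integrable_norm_pow (p := 2) (by norm_num)

lemma mol_fderiv_sq_le {Ω : Set E} (hΩ : IsOpen Ω) {u : E → ℝ} {g : E → E} (h : IsH1 Ω u g)
    (φ : ContDiffBump (0 : E)) {z : E} (hz : closedBall z φ.rOut ⊆ Ω) (v : E) :
    (fderiv ℝ (mol (Ω.indicator u) (φ.normed volume)) z v) ^ 2 ≤
      ‖v‖ ^ 2 * mol (Ω.indicator fun x => ‖g x‖ ^ 2) (φ.normed volume) z := by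
  set ρ := φ.normed volume with hρ
  have hρs : ContDiff ℝ ∞ ρ := φ.contDiff_normed
  have hρ1 : ContDiff ℝ 1 ρ := φ.contDiff_normed
  have hρc : HasCompactSupport ρ := φ.hasCompactSupport_normed
  have hρ0 : ∀ x, 0 ≤ ρ x := φ.nonneg_normed
  have hm := hΩ.measurableSet
  have h1 : fderiv ℝ (mol (Ω.indicator u) ρ) z v = ∫ t in Ω, u t * fderiv ℝ ρ (z - t) v := by
    unfold mol
    rw [(hρc.hasFDerivAt_convolution_right _ (h.locInt hm) hρ1 z).fderiv,
      convolution_precompR_apply _ (h.locInt hm) (hρc.fderiv ℝ) (hρ1.continuous_fderiv (by simp))]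
    exact mol_indicator hm u (fun a => fderiv ℝ ρ a v) z
  set ψ : E → ℝ := fun t => ρ (z - t) with hψ
  have hψs : ContDiff ℝ ∞ ψ := hρs.comp (contDiff_const.sub contDiff_id)
  have hψc : HasCompactSupport ψ := hρc.comp_homeomorph (Homeomorph.subLeft z)
  have hψsupp : tsupport ψ ⊆ Ω := by
    refine subset_trans (closure_minimal ?_ isClosed_closedBall) hz
    intro t ht
    have : z - t ∈ Function.support ρ := ht
    rw [hρ, φ.support_normed_eq, mem_ball, dist_zero_right] at this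
    rw [mem_closedBall, dist_comm, dist_eq_norm]
    exact this.le
  have hψd : ∀ t, fderiv ℝ ψ t v = -fderiv ℝ ρ (z - t) v := by
    intro t
    have h2 : HasFDerivAt ψ ((fderiv ℝ ρ (z - t)).comp (-ContinuousLinearMap.id ℝ E)) t :=
      (hρ1.differentiable (by simp) (z - t)).hasFDerivAt.comp t
        ((hasFDerivAt_id t).const_sub z)
    rw [h2.fderiv]; simp
  have h2 := h.2.2 ψ hψs hψc hψsupp v
  simp only [hψd, mul_neg, integral_neg, neg_inj] at h2
  rw [h1, h2, mol_indicator hm]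
  obtain ⟨C, hC⟩ := hψs.continuous.bounded_above_of_compact_support hψc
  have hψi : Integrable ψ volume := hψs.continuous.integrable_of_hasCompactSupport hψc
  have hψ1 : ∫ t in Ω, ψ t ≤ 1 := by
    have h3 : ∫ t, ψ t = 1 := by
      rw [hψ, integral_sub_left_eq_self ρ volume z]
      exact φ.integral_normed
    rw [← h3]
    exact setIntegral_le_integral hψi (Eventually.of_forall fun t => hρ0 _)
  have hi1 : Integrable (fun t => ‖g t‖ ^ 2 * ψ t) (volume.restrict Ω) :=
    h.int_sq.mul_bdd hψs.continuous.aestronglyMeasurable (Eventually.of_forall hC)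
  have hi2 : Integrable (fun t => inner ℝ (g t) v * ψ t) (volume.restrict Ω) := by
    have h3 : MemLp (fun t => inner ℝ (g t) v) 2 (volume.restrict Ω) := h.2.1.inner_const v
    have h4 : MemLp ψ 2 (volume.restrict Ω) :=
      (hψs.continuous.memLp_of_hasCompactSupport hψc).restrict Ω
    exact h3.integrable_mul h4
  set A := ∫ t in Ω, inner ℝ (g t) v * ψ t with hA
  have h5 : ∫ t in Ω, 2 * A * (inner ℝ (g t) v * ψ t) ≤
      ∫ t in Ω, (‖v‖ ^ 2 * (‖g t‖ ^ 2 * ψ t) + A ^ 2 * ψ t) := by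
    refine integral_mono (hi2.const_mul _) ((hi1.const_mul _).add (hψi.restrict.const_mul _))
      fun t => ?_
    have h6 : inner ℝ (g t) v ^ 2 ≤ ‖v‖ ^ 2 * ‖g t‖ ^ 2 := by
      rw [← mul_pow, ← sq_abs, mul_comm]
      exact pow_le_pow_left₀ (abs_nonneg _) (abs_real_inner_le_norm _ _) 2
    have h7 : 0 ≤ ψ t := hρ0 _
    simp only
    nlinarith [mul_nonneg h7 (sq_nonneg (inner ℝ (g t) v - A)), mul_le_mul_of_nonneg_right h6 h7]
  rw [integral_const_mul, integral_add (hi1.const_mul _) (hψi.restrict.const_mul _),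
    integral_const_mul, integral_const_mul, ← hA] at h5
  nlinarith [mul_le_mul_of_nonneg_left hψ1 (sq_nonneg A)]

lemma sq_sub_le_integral {f f' G : ℝ → ℝ} (hf : ∀ t, HasDerivAt f (f' t) t) (hf' : Continuous f')
    (hG : Continuous G) (h : ∀ t ∈ Icc (1 / 2 : ℝ) 1, f' t ^ 2 ≤ G t) :
    (f 1 - f (1 / 2)) ^ 2 ≤ ∫ t in (1 / 2 : ℝ)..1, G t := by
  have h1 := intervalIntegral.integral_eq_sub_of_hasDerivAt (a := 1 / 2) (b := 1)
    (fun t _ => hf t) (hf'.intervalIntegrable _ _)
  set A := f 1 - f (1 / 2)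
  have h2 : ∫ t in (1 / 2 : ℝ)..1, 2 * A * f' t ≤ ∫ t in (1 / 2 : ℝ)..1, (G t + A ^ 2) := by
    refine intervalIntegral.integral_mono_on (by norm_num)
      ((continuous_const.mul hf').intervalIntegrable _ _)
      ((hG.add continuous_const).intervalIntegrable _ _) fun t ht => ?_
    nlinarith [h t ht, sq_nonneg (f' t - A)]
  rw [intervalIntegral.integral_const_mul, h1, intervalIntegral.integral_add
    (hG.intervalIntegrable _ _) (continuous_const.intervalIntegrable _ _)] at h2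
  simp only [intervalIntegral.integral_const, smul_eq_mul] at h2
  nlinarith [sq_nonneg A]

noncomputable def TT (G : E → ℝ) (x y : E) : ℝ≥0∞ :=
  ∫⁻ t in Ioc (1 / 2 : ℝ) 1, ENNReal.ofReal (G (x + t • (y - x)))

lemma measurable_TT {G : E → ℝ} (hG : Continuous G) : Measurable (fun p : E × E => TT G p.1 p.2) := by
  unfold TT
  refine Measurable.lintegral_prod_right (f := fun (p : E × E) (t : ℝ) =>
    ENNReal.ofReal (G (p.1 + t • (p.2 - p.1)))) ?_
  exact ENNReal.measurable_ofReal.comp (hG.comp (by fun_prop)).measurable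

omit [FiniteDimensional ℝ E] [MeasurableSpace E] [BorelSpace E] in
lemma half_le {U G : E → ℝ} (hU : ContDiff ℝ 1 U) (hG : Continuous G) (hG0 : ∀ z, 0 ≤ G z)
    {x y : E} {D : ℝ} (hD : ‖y - x‖ ^ 2 ≤ D)
    (h : ∀ z ∈ segment ℝ x y, ∀ v, (fderiv ℝ U z v) ^ 2 ≤ ‖v‖ ^ 2 * G z) :
    ENNReal.ofReal ((U y - U (x + (1 / 2 : ℝ) • (y - x))) ^ 2) ≤ ENNReal.ofReal D * TT G x y := by
  have hD0 : 0 ≤ D := (sq_nonneg _).trans hD
  have hc : Continuous fun t : ℝ => x + t • (y - x) := by fun_prop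
  have h1 := sq_sub_le_integral (f := fun t => U (x + t • (y - x)))
    (f' := fun t => fderiv ℝ U (x + t • (y - x)) (y - x))
    (G := fun t => D * G (x + t • (y - x))) (fun t => ?_) ?_ (continuous_const.mul (hG.comp hc))
    (fun t ht => ?_)
  · simp only [one_smul, add_sub_cancel] at h1
    refine (ENNReal.ofReal_le_ofReal h1).trans (le_of_eq ?_)
    rw [intervalIntegral.integral_const_mul, ENNReal.ofReal_mul hD0,
      intervalIntegral.integral_of_le (by norm_num), TT, ofReal_integral_eq_lintegral_ofReal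
        (f := fun t : ℝ => G (x + t • (y - x)))
        ((hG.comp hc).integrableOn_Icc.mono_set Ioc_subset_Icc_self)
        (Eventually.of_forall fun t => hG0 _)]
  · have h2 : HasDerivAt (fun t : ℝ => x + t • (y - x)) (y - x) t := by
      simpa using ((hasDerivAt_id t).smul_const (y - x)).const_add x
    exact (hU.differentiable (by simp) _).hasFDerivAt.comp_hasDerivAt t h2
  · exact ((hU.continuous_fderiv (by simp)).comp hc).clm_apply continuous_const
  · refine (h _ ?_ _).trans (mul_le_mul_of_nonneg_right hD (hG0 _))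
    rw [segment_eq_image']
    exact ⟨t, ⟨by linarith [ht.1], ht.2⟩, rfl⟩

omit [FiniteDimensional ℝ E] [MeasurableSpace E] [BorelSpace E] in
lemma full_le {U G : E → ℝ} (hU : ContDiff ℝ 1 U) (hG : Continuous G) (hG0 : ∀ z, 0 ≤ G z)
    {x y : E} {D : ℝ} (hD : ‖y - x‖ ^ 2 ≤ D)
    (h : ∀ z ∈ segment ℝ x y, ∀ v, (fderiv ℝ U z v) ^ 2 ≤ ‖v‖ ^ 2 * G z) :
    ENNReal.ofReal ((U y - U x) ^ 2) ≤ 2 * ENNReal.ofReal D * (TT G x y + TT G y x) := by
  have h1 := half_le hU hG hG0 hD h
  have h2 := half_le hU hG hG0 (x := y) (y := x) (D := D) (by rwa [norm_sub_rev])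
    (by rwa [segment_symm])
  have h3 : y + (1 / 2 : ℝ) • (x - y) = x + (1 / 2 : ℝ) • (y - x) := by module
  rw [h3] at h2
  set m := U (x + (1 / 2 : ℝ) • (y - x))
  have h4 : (U y - U x) ^ 2 ≤ 2 * ((U y - m) ^ 2 + (U x - m) ^ 2) := by
    nlinarith [sq_nonneg (U y + U x - 2 * m)]
  refine (ENNReal.ofReal_le_ofReal h4).trans ?_
  rw [ENNReal.ofReal_mul (by norm_num), ENNReal.ofReal_add (sq_nonneg _) (sq_nonneg _),
    ENNReal.ofReal_ofNat, mul_assoc, mul_add (ENNReal.ofReal D)]
  gcongr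

lemma lintegral_TT_le {G : E → ℝ} (hG : Continuous G) (x : E) :
    ∫⁻ y, TT G x y ≤ 2 ^ Module.finrank ℝ E * ∫⁻ z, ENNReal.ofReal (G z) := by
  have hm : Measurable fun z => ENNReal.ofReal (G z) :=
    ENNReal.measurable_ofReal.comp hG.measurable
  unfold TT
  have hc : Continuous fun p : E × ℝ => G (x + p.2 • (p.1 - x)) := hG.comp (by fun_prop)
  rw [lintegral_lintegral_swap (f := fun (y : E) (t : ℝ) => ENNReal.ofReal (G (x + t • (y - x))))
    (ENNReal.measurable_ofReal.comp hc.measurable).aemeasurable]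
  have h1 : ∀ t ∈ Ioc (1 / 2 : ℝ) 1, ∫⁻ y, ENNReal.ofReal (G (x + t • (y - x))) ≤
      2 ^ Module.finrank ℝ E * ∫⁻ z, ENNReal.ofReal (G z) := by
    intro t ht
    have ht0 : 0 < t := by linarith [ht.1]
    have h2 : ∀ y, x + t • (y - x) = (x - t • x) + t • y := fun y => by module
    simp only [h2]
    have h3 := lintegral_map (μ := (volume : Measure E))
      (f := fun z => ENNReal.ofReal (G ((x - t • x) + z))) (g := fun y => t • y)
      (hm.comp (by fun_prop)) (by fun_prop)
    rw [← h3, Measure.map_addHaar_smul volume ht0.ne', lintegral_smul_measure,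
      lintegral_add_left_eq_self (fun z => ENNReal.ofReal (G z)), smul_eq_mul]
    gcongr
    rw [abs_of_pos (by positivity), ← inv_pow, ENNReal.ofReal_pow (by positivity)]
    gcongr
    rw [← ENNReal.ofReal_ofNat]
    refine ENNReal.ofReal_le_ofReal ?_
    rw [inv_le_comm₀ ht0 (by norm_num)]
    linarith [ht.1]
  refine (setLIntegral_mono' measurableSet_Ioc h1).trans ?_
  rw [setLIntegral_const, Real.volume_Ioc]
  refine mul_le_of_le_one_right' ?_
  rw [← ENNReal.ofReal_one]
  exact ENNReal.ofReal_le_ofReal (by norm_num)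

lemma lintegral_prod_TT_le {G : E → ℝ} (hG : Continuous G) (Q : Set E) :
    ∫⁻ p : E × E, (TT G p.1 p.2 + TT G p.2 p.1) ∂((volume.restrict Q).prod (volume.restrict Q)) ≤
      2 * ((2 ^ Module.finrank ℝ E * ∫⁻ z, ENNReal.ofReal (G z)) * volume Q) := by
  have hm := measurable_TT hG
  have h1 : ∫⁻ p : E × E, TT G p.1 p.2 ∂((volume.restrict Q).prod (volume.restrict Q)) ≤
      (2 ^ Module.finrank ℝ E * ∫⁻ z, ENNReal.ofReal (G z)) * volume Q := by
    rw [lintegral_prod _ hm.aemeasurable, ← setLIntegral_const]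
    exact lintegral_mono fun x => (setLIntegral_le_lintegral _ _).trans (lintegral_TT_le hG x)
  rw [lintegral_add_left hm, two_mul]
  refine add_le_add h1 (le_of_eq_of_le ?_ h1)
  exact lintegral_prod_swap (fun p : E × E => TT G p.1 p.2)

theorem poincare_convex {Ω Q : Set E} (hΩ : IsOpen Ω) (hQ : Convex ℝ Q) (hQm : MeasurableSet Q)
    (hQΩ : Q ⊆ Ω) (hQ0 : volume Q ≠ 0) (hQ1 : volume Q ≠ ⊤) {D : ℝ}
    (hD : ∀ x ∈ Q, ∀ y ∈ Q, ‖y - x‖ ^ 2 ≤ D) {u : E → ℝ} {g : E → E} (h : IsH1 Ω u g) :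
    ∃ c : ℝ, ∫ x in Q, (u x - c) ^ 2 ≤
      (4 * D * 2 ^ Module.finrank ℝ E) * ∫ x in Ω, ‖g x‖ ^ 2 := by
  have hm := hΩ.measurableSet
  obtain ⟨x₀, hx₀⟩ := nonempty_of_measure_ne_zero hQ0
  have hD0 : 0 ≤ D := (sq_nonneg _).trans (hD x₀ hx₀ x₀ hx₀)
  let φ : ℕ → ContDiffBump (0 : E) := fun n =>
    ⟨1 / (2 * ((n : ℝ) + 1)), 1 / ((n : ℝ) + 1), by positivity, by
      apply one_div_lt_one_div_of_lt <;> nlinarith [(Nat.cast_nonneg n : (0 : ℝ) ≤ n)]⟩
  have hr : Tendsto (fun n => (φ n).rOut) atTop (𝓝 0) := tendsto_one_div_add_atTop_nhds_zero_nat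
  have hconv := ContDiffBump.ae_convolution_tendsto_right_of_locallyIntegrable (K := 2) hr
    (Eventually.of_forall fun n => le_of_eq (by simp only [φ]; field_simp)) (h.locInt hm)
  set U : ℕ → E → ℝ := fun n => mol (Ω.indicator u) ((φ n).normed volume) with hU
  set G : ℕ → E → ℝ := fun n => mol (Ω.indicator fun x => ‖g x‖ ^ 2) ((φ n).normed volume) with hG
  have hgi : Integrable (Ω.indicator fun x => ‖g x‖ ^ 2) volume :=
    (integrable_indicator_iff hm).mpr h.int_sq
  have hUc : ∀ n, ContDiff ℝ 1 (U n) := fun n =>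
    (φ n).hasCompactSupport_normed.contDiff_convolution_right (n := 1) _ (h.locInt hm)
      (φ n).contDiff_normed
  have hGc : ∀ n, Continuous (G n) := fun n =>
    (φ n).hasCompactSupport_normed.continuous_convolution_right _ hgi.locallyIntegrable
      (φ n).continuous_normed
  have hG0 : ∀ n z, 0 ≤ G n z := by
    intro n z
    simp only [hG]
    rw [mol_indicator hm]
    exact integral_nonneg fun t => mul_nonneg (sq_nonneg _) ((φ n).nonneg_normed _)
  have hGint : ∀ n, ∫⁻ z, ENNReal.ofReal (G n z) = ENNReal.ofReal (∫ x in Ω, ‖g x‖ ^ 2) := by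
    intro n
    rw [← ofReal_integral_eq_lintegral_ofReal (f := G n)
      (hgi.integrable_convolution _ (φ n).integrable_normed) (Eventually.of_forall (hG0 n))]
    congr 1
    simp only [hG, mol]
    rw [integral_convolution _ hgi (φ n).integrable_normed, (φ n).integral_normed,
      integral_indicator hm]
    simp
  have hconv' : ∀ᵐ x ∂(volume.restrict Q), x ∈ Q ∧ Tendsto (fun n => U n x) atTop (𝓝 (u x)) := by
    filter_upwards [ae_restrict_mem hQm, ae_restrict_of_ae hconv] with x hx h1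
    refine ⟨hx, ?_⟩
    rw [indicator_of_mem (hQΩ hx)] at h1
    refine h1.congr fun n => ?_
    simp only [hU]
    rw [convolution_lsmul_swap, mol_apply]
    congr 1; ext t; rw [smul_eq_mul, mul_comm]
  have hpt : ∀ᵐ p : E × E ∂((volume.restrict Q).prod (volume.restrict Q)),
      ENNReal.ofReal ((u p.2 - u p.1) ^ 2) ≤
        liminf (fun n => 2 * ENNReal.ofReal D * (TT (G n) p.1 p.2 + TT (G n) p.2 p.1)) atTop := by
    filter_upwards [Measure.quasiMeasurePreserving_fst.ae hconv',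
      Measure.quasiMeasurePreserving_snd.ae hconv'] with p h1 h2
    have h3 : Tendsto (fun n => ENNReal.ofReal ((U n p.2 - U n p.1) ^ 2)) atTop
        (𝓝 (ENNReal.ofReal ((u p.2 - u p.1) ^ 2))) :=
      (ENNReal.continuous_ofReal.tendsto _).comp ((h2.2.sub h1.2).pow 2)
    rw [← h3.liminf_eq]
    refine liminf_le_liminf ?_
    have hK : IsCompact (segment ℝ p.1 p.2) := by
      rw [segment_eq_image']
      exact isCompact_Icc.image (by fun_prop)
    obtain ⟨δ, hδ, hδ'⟩ := hK.exists_cthickening_subset_open hΩ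
      ((hQ.segment_subset h1.1 h2.1).trans hQΩ)
    filter_upwards [hr.eventually (gt_mem_nhds hδ)] with n hn
    refine full_le (hUc n) (hGc n) (hG0 n) (hD _ h1.1 _ h2.1) fun z hz v => ?_
    refine mol_fderiv_sq_le hΩ h (φ n) ?_ v
    exact ((closedBall_subset_closedBall hn.le).trans (closedBall_subset_cthickening hz δ)).trans hδ'
  set κ : ℝ := (4 * D * 2 ^ Module.finrank ℝ E) * ∫ x in Ω, ‖g x‖ ^ 2 with hκ
  have hE0 : 0 ≤ ∫ x in Ω, ‖g x‖ ^ 2 := integral_nonneg fun _ => sq_nonneg _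
  have hκ0 : 0 ≤ κ := by positivity
  have htot : ∫⁻ p : E × E, ENNReal.ofReal ((u p.2 - u p.1) ^ 2)
      ∂((volume.restrict Q).prod (volume.restrict Q)) ≤ ENNReal.ofReal κ * volume Q := by
    refine (lintegral_mono_ae hpt).trans ((lintegral_liminf_le fun n =>
      ((measurable_TT (hGc n)).add ((measurable_TT (hGc n)).comp measurable_swap)).const_mul
        _).trans ?_)
    refine liminf_le_of_frequently_le' (Frequently.of_forall fun n => ?_)
    rw [lintegral_const_mul _
      ((measurable_TT (hGc n)).add ((measurable_TT (hGc n)).comp measurable_swap))]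
    refine (mul_le_mul_right (lintegral_prod_TT_le (hGc n) Q) _).trans (le_of_eq ?_)
    rw [hGint, hκ, ENNReal.ofReal_mul (by positivity), ENNReal.ofReal_mul (by positivity),
      ENNReal.ofReal_mul (by positivity), ENNReal.ofReal_pow (by norm_num)]
    simp only [ENNReal.ofReal_ofNat]
    ring
  have huQ : MemLp u 2 (volume.restrict Q) :=
    h.1.mono_measure (Measure.restrict_mono hQΩ le_rfl)
  have hum : AEMeasurable u (volume.restrict Q) := huQ.1.aemeasurable
  have hme : AEMeasurable (fun p : E × E => ENNReal.ofReal ((u p.2 - u p.1) ^ 2))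
      ((volume.restrict Q).prod (volume.restrict Q)) :=
    ((hum.comp_snd.sub hum.comp_fst).pow_const 2).ennreal_ofReal
  rw [lintegral_prod _ hme] at htot
  obtain ⟨x, -, hx⟩ := exists_le_setLAverage hQ0 hQ1 hme.lintegral_prod_right'
  rw [setLAverage_eq] at hx
  have hx' : ∫⁻ y in Q, ENNReal.ofReal ((u y - u x) ^ 2) ≤ ENNReal.ofReal κ :=
    hx.trans (ENNReal.div_le_of_le_mul htot)
  refine ⟨u x, ?_⟩
  have : IsFiniteMeasure (volume.restrict Q) := isFiniteMeasure_restrict.mpr hQ1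
  rw [← ofReal_integral_eq_lintegral_ofReal (f := fun y => (u y - u x) ^ 2)
    (huQ.sub (memLp_const _)).integrable_sq
    (Eventually.of_forall fun _ => sq_nonneg _)] at hx'
  exact (ENNReal.ofReal_le_ofReal_iff hκ0).mp hx'

end Pool.Agent.Lib.MP_770ffc_an
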